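import Pool.Agent.H55.BicFinal

/-!
Disproof of the unimodality conjecture for the numbers of forcibly biconnected graphical degree
sequences of length `n`, by degree sum: it fails for `n = 34` and for every `n ≥ 36`, at the
degree sums `4n-4`, `4n-2`, `4n`.
-/

namespace Pool.Agent.Results.MP_5c9610_co.NotUnimodal

open Pool.Agent.H55.Bic

/-- For `n = 34` and for every `n ≥ 36` one has `F_2(n, 4n-2) < F_2(n, 4n-4)` and
`F_2(n, 4n-2) < F_2(n, 4n)`; in particular the sequence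
`F_2(n, 2n-2), F_2(n, 2n), ..., F_2(n, n(n-1))` is not unimodal. -/
theorem result :
    (∀ n : ℕ, (n = 34 ∨ 36 ≤ n) →
      F2 n (4 * n - 2) < F2 n (4 * n - 4) ∧ F2 n (4 * n - 2) < F2 n (4 * n)) ∧
    (∀ n : ℕ, (n = 34 ∨ 36 ≤ n) →
      ¬ Unimodal (fun t => F2 n (2 * n - 2 + 2 * t)) ((n - 1) * (n - 2) / 2)) ∧
    ¬ (∀ n : ℕ, 3 ≤ n → Unimodal (fun t => F2 n (2 * n - 2 + 2 * t)) ((n - 1) * (n - 2) / 2)) := by
  have key : ∀ n : ℕ, (n = 34 ∨ 36 ≤ n) →
      ¬ Unimodal (fun t => F2 n (2 * n - 2 + 2 * t)) ((n - 1) * (n - 2) / 2) := by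
    intro n hn
    obtain ⟨h1, h2⟩ := F2_dip hn
    apply not_unimodal_of_dip _ _ (n - 1)
    · obtain ⟨m, rfl⟩ : ∃ m, n = m + 34 := ⟨n - 34, by omega⟩
      have e1 : m + 34 - 1 = m + 33 := by omega
      have e2 : m + 34 - 2 = m + 32 := by omega
      rw [e1, e2, Nat.le_div_iff_mul_le (by norm_num)]
      have : (m + 33) * (m + 32) = m * m + 65 * m + 1056 := by ring
      rw [this]
      have h11 : 0 ≤ m * m := Nat.zero_le _
      generalize m * m = mm at h11 ⊢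
      omega
    · show F2 n (2 * n - 2 + 2 * (n - 1 + 1)) < F2 n (2 * n - 2 + 2 * (n - 1))
      have e1 : 2 * n - 2 + 2 * (n - 1 + 1) = 4 * n - 2 := by omega
      have e2 : 2 * n - 2 + 2 * (n - 1) = 4 * n - 4 := by omega
      rw [e1, e2]
      exact h1
    · show F2 n (2 * n - 2 + 2 * (n - 1 + 1)) < F2 n (2 * n - 2 + 2 * (n - 1 + 2))
      have e1 : 2 * n - 2 + 2 * (n - 1 + 1) = 4 * n - 2 := by omega
      have e2 : 2 * n - 2 + 2 * (n - 1 + 2) = 4 * n := by omega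
      rw [e1, e2]
      exact h2
  exact ⟨fun n hn => F2_dip hn, key, fun h => key 34 (Or.inl rfl) (h 34 (by norm_num))⟩

end Pool.Agent.Results.MP_5c9610_co.NotUnimodal
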